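import Pool.Agent.Helper8_CR.Stmts

/-!
# PRES: the classes of the jet spaces of `f` and of its stabilization
-/

set_option autoImplicit false
set_option linter.unusedVariables false

noncomputable section

namespace Pool.Agent.Helper8_CR.H34

open MvPolynomial Pool.Agent.Helper6_Mono Pool.Agent.Helper6_Mono.RingPart

section
variable {k : Type} [Field k] {σ : Type}

lemma aeval_sum_eq {S : Type} [CommRing S] [Algebra k S] (f : MvPolynomial σ k) (r : ℕ)
    (γ : SV σ r → PowerSeries S) :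
    aeval γ (stab f r) = fuv f (fun i => γ (Sum.inl i)) (fun i => γ (Sum.inr i)) := by
  unfold stab fuv
  rw [map_add, aeval_rename, map_sum]
  congr 1
  apply Finset.sum_congr rfl
  intro i _
  rw [map_mul, aeval_X, aeval_X]

/-- the jets with `f(γ) = t ^ m` -/
theorem fib_iso (f : MvPolynomial σ k) (m : ℕ) (ω : QZ) (hω : m • ω = 0) :
    OIso ((FibK k σ ω m hω).app (Jet f Set.univ m ω)) (JY f m m ω hω) := by
  refine ⟨⟨fun S _ _ => ?_, ?_⟩, ?_⟩
  · refine
      { toFun := fun x => ⟨x.1.1, fun j hj => ?_⟩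
        invFun := fun y => ⟨(y.1, ()), fun a => ?_⟩
        left_inv := fun x => rfl
        right_inv := fun y => rfl }
    · have h1 := x.2 (⟨j, by omega⟩ : Fin (m + 1))
      change (if j ≤ m then PowerSeries.coeff j (aeval x.1.1.1 f) else 0) -
        (if j = m then 1 else 0) = 0 at h1
      rw [if_pos hj] at h1
      exact sub_eq_zero.mp h1
    · have h1 := y.2 (a : ℕ) (by have := a.2; omega)
      change (if (a : ℕ) ≤ m then PowerSeries.coeff (a : ℕ) (aeval y.1.1 f) else 0) -
        (if (a : ℕ) = m then 1 else 0) = 0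
      rw [if_pos (by have := a.2; omega)]
      exact sub_eq_zero.mpr h1
  · intro S S' _ _ _ _ φ c x
    rfl
  · intro S _ _ x b
    rfl

theorem FT_JY [Finite σ] (f : MvPolynomial σ k) (m a : ℕ) (ω : QZ) (hω : m • ω = 0) :
    FT (JY f m a ω hω).F := by
  refine FT.closed (FT.jet Set.univ Set.finite_univ m ω)
    (P := fun S _ _ γ => ∀ j, j ≤ a → jf f γ.1 j = if j = m then 1 else 0)
    (fun φ c γ h j hj => by
      show jf f (fun i => twS ω φ c (γ.1 i)) j = _
      rw [jf_tw, h j hj, ← one_tw hω]) (A := {j : ℕ // j ≤ a})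
    (w := fun j => (j : ℕ) • ω)
    (fun j => ⟨fun γ => jf f γ.1 j - if (j : ℕ) = m then 1 else 0, fun φ c γ => ?_⟩) ?_
  · show jf f (fun i => twS ω φ c (γ.1 i)) j - (if (j : ℕ) = m then 1 else 0) = _
    rw [jf_tw, map_sub, mul_sub, ← one_tw hω]
  · intro S _ _ x
    constructor
    · intro h j
      exact sub_eq_zero.mpr (h j.1 j.2)
    · intro h j hj
      exact sub_eq_zero.mp (h ⟨j, hj⟩)

theorem pres_one [Finite σ] (f : MvPolynomial σ k) (m : ℕ) (hm : m ≠ 0)
    (hω : m • ((((1 : ℚ) / m : ℚ)) : QZ) = 0) :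
    cls (XJet f m hm) = (chi f).χ (JY f m m ((((1 : ℚ) / m : ℚ)) : QZ) hω) := by
  have h1 : (chi f).χ ((FibK k σ ((((1 : ℚ) / m : ℚ)) : QZ) m hω).app
      (Jet f Set.univ m ((((1 : ℚ) / m : ℚ)) : QZ))) = cls (XJet f m hm) :=
    val_eq (pres_jet m hm hω)
  rw [← h1]
  exact (chi f).iso ((FibK k σ _ m hω).app_FT (FT.jet Set.univ Set.finite_univ m _))
    (fib_iso f m _ hω)

/-- the inclusion `x ↦ (x, 0, 0)` -/
def gS (k : Type) [Field k] (σ : Type) (r : ℕ) : SV σ r → MvPolynomial σ k :=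
  Sum.elim X (fun _ => 0)

lemma bind_gS (f : MvPolynomial σ k) (r : ℕ) : bind₁ (gS k σ r) (stab f r) = f := by
  unfold stab
  rw [map_add, bind₁_rename, map_sum]
  have h1 : (gS k σ r ∘ Sum.inl) = (X : σ → MvPolynomial σ k) := by
    funext i
    rfl
  rw [h1]
  have h2 : bind₁ (X : σ → MvPolynomial σ k) f = f := by
    rw [bind₁]
    exact DFunLike.congr_fun (aeval_X_left (R := k) (σ := σ)) f
  rw [h2]
  have h3 : ∑ x : Fin r, bind₁ (gS k σ r)
      (X (Sum.inr (Sum.inl x)) * X (Sum.inr (Sum.inr x))) = 0 := by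
    apply Finset.sum_eq_zero
    intro j _
    rw [map_mul, bind₁_X_right, bind₁_X_right]
    show (0 : MvPolynomial σ k) * 0 = 0
    rw [zero_mul]
  rw [h3, add_zero]

theorem pbk_iso [Finite σ] (f : MvPolynomial σ k) (r m : ℕ) (ω : QZ) (hω : m • ω = 0) :
    OIso ((PBK (gS k σ r)).app (JY (stab f r) m m ω hω)) (JS f r m ω hω) := by
  have hg0 : ∀ {S : Type} [CommRing S] [Algebra k S] (z : σ → S) (i : σ),
      aeval z (gS k σ r (Sum.inl i)) = z i := by
    intro S _ _ z i
    show aeval z (X i : MvPolynomial σ k) = z i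
    rw [aeval_X]
  have hg1 : ∀ {S : Type} [CommRing S] [Algebra k S] (z : σ → S) (i : Fin r ⊕ Fin r),
      aeval z (gS k σ r (Sum.inr i)) = 0 := by
    intro S _ _ z i
    show aeval z (0 : MvPolynomial σ k) = 0
    rw [map_zero]
  refine ⟨⟨fun S _ _ => ?_, ?_⟩, ?_⟩
  · refine
      { toFun := fun x => ⟨(⟨fun i => x.1.1.1.1 (Sum.inl i), fun i j h => ?_⟩,
          ⟨fun i => x.1.1.1.1 (Sum.inr i), fun i j h => ?_⟩), fun j hj => ?_⟩
        invFun := fun y => ⟨(⟨⟨Sum.elim y.1.1.1 y.1.2.1, fun i j h => ?_⟩, fun j hj => ?_⟩,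
          fun i => PowerSeries.coeff 0 (y.1.1.1 i)), fun a => ?_⟩
        left_inv := fun x => ?_
        right_inv := fun y => ?_ }
    · refine x.1.1.1.2 (Sum.inl i) j ?_
      rcases h with h | h
      · exact absurd (Set.mem_univ i) h
      · exact Or.inr h
    · rcases Nat.eq_zero_or_pos j with h0 | h0
      · have h1 := x.2 (Sum.inr i)
        change PowerSeries.coeff 0 (x.1.1.1.1 (Sum.inr i)) - aeval x.1.2 (gS k σ r (Sum.inr i)) = 0
          at h1
        rw [hg1, sub_zero] at h1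
        rw [h0]
        exact h1
      · refine x.1.1.1.2 (Sum.inr i) j (Or.inr ?_)
        by_contra hcon
        exact h ⟨h0, not_lt.mp hcon⟩
    · have h1 := x.1.1.2 j hj
      change PowerSeries.coeff j (aeval x.1.1.1.1 (stab f r)) = _ at h1
      rw [aeval_sum_eq] at h1
      exact h1
    · rcases h with h | h
      · exact absurd (Set.mem_univ i) h
      · rcases i with i | i
        · exact y.1.1.2 i j (Or.inr h)
        · exact y.1.2.2 i j (fun hd => absurd hd.2 (not_le.mpr h))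
    · show PowerSeries.coeff j (aeval (Sum.elim y.1.1.1 y.1.2.1) (stab f r)) = _
      rw [aeval_sum_eq]
      exact y.2 j hj
    · rcases a with a | a
      · show PowerSeries.coeff 0 (y.1.1.1 a) - aeval (fun i => PowerSeries.coeff 0 (y.1.1.1 i))
          (gS k σ r (Sum.inl a)) = 0
        rw [hg0, sub_self]
      · show PowerSeries.coeff 0 (y.1.2.1 a) - aeval (fun i => PowerSeries.coeff 0 (y.1.1.1 i))
          (gS k σ r (Sum.inr a)) = 0
        rw [hg1, sub_zero]
        exact y.1.2.2 a 0 (fun hd => absurd hd.1 (by omega))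
    · apply Subtype.ext
      refine Prod.ext (Subtype.ext (Subtype.ext (funext fun i => ?_))) (funext fun i => ?_)
      · rcases i with i | i
        · rfl
        · rfl
      · have h1 := x.2 (Sum.inl i)
        change PowerSeries.coeff 0 (x.1.1.1.1 (Sum.inl i)) - aeval x.1.2 (gS k σ r (Sum.inl i)) = 0
          at h1
        rw [hg0] at h1
        exact sub_eq_zero.mp h1
    · rfl
  · intro S S' _ _ _ _ φ c x
    rfl
  · intro S _ _ x b
    have h1 := x.2 (Sum.inl b)
    change PowerSeries.coeff 0 (x.1.1.1.1 (Sum.inl b)) - aeval x.1.2 (gS k σ r (Sum.inl b)) = 0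
      at h1
    rw [hg0] at h1
    exact sub_eq_zero.mp h1

end

theorem pres (hP : PbhStmt) : PresStmt := by
  intro k _ σ _ f m hm hω
  refine ⟨pres_one f m hm hω, fun r => ?_⟩
  obtain ⟨ψ, hψ, hψX⟩ := hP k σ (SV σ r) (stab f r) f (gS k σ r) (by
    rw [bind_gS]
    exact Ideal.subset_span rfl)
  refine ⟨ψ, hψ, fun m hm hω => ?_⟩
  rw [pres_one (stab f r) m hm hω, hψX _ (FT_JY (stab f r) m m _ hω)]
  exact (chi f).iso ((PBK (gS k σ r)).app_FT (FT_JY (stab f r) m m _ hω))
    (pbk_iso f r m _ hω)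

end Pool.Agent.Helper8_CR.H34
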