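import Pool.Agent.Helper8_CR.BStmts

/-!
# REN: iterated stabilization, stabilization of isomorphisms
-/

set_option autoImplicit false

noncomputable section

namespace Pool.Agent.Helper8_CR.H34

open MvPolynomial Pool.Agent.Helper6_Mono

section
variable {k : Type} [Field k] {σ τ : Type}

/-- the renaming of the variables -/
def eqv (σ : Type) (r s : ℕ) : SV (SV σ r) s ≃ SV σ (r + s) :=
  (Equiv.sumAssoc σ (Fin r ⊕ Fin r) (Fin s ⊕ Fin s)).trans
    (Equiv.sumCongr (Equiv.refl σ)
      ((Equiv.sumSumSumComm (Fin r) (Fin r) (Fin s) (Fin s)).trans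
        (Equiv.sumCongr finSumFinEquiv finSumFinEquiv)))

lemma rename_stab (f : MvPolynomial σ k) (r s : ℕ) :
    rename (eqv σ r s) (stab (stab f r) s) = stab f (r + s) := by
  unfold stab
  rw [map_add, map_add, map_add, rename_rename, rename_rename, map_sum, map_sum, map_sum,
    Fin.sum_univ_add, add_assoc]
  congr 1
  congr 1
  · apply Finset.sum_congr rfl
    intro j _
    rw [map_mul, map_mul, rename_X, rename_X, rename_X, rename_X]
    rfl
  · apply Finset.sum_congr rfl
    intro j _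
    rw [map_mul, rename_X, rename_X]
    rfl

/-- extension of a homomorphism to the new variables -/
def ext (s : ℕ) (φ : MvPolynomial τ k →ₐ[k] MvPolynomial σ k) :
    MvPolynomial (SV τ s) k →ₐ[k] MvPolynomial (SV σ s) k :=
  aeval (Sum.elim (fun t => rename Sum.inl (φ (X t))) (fun j => X (Sum.inr j)))

lemma ext_inr (s : ℕ) (φ : MvPolynomial τ k →ₐ[k] MvPolynomial σ k) (j : Fin s ⊕ Fin s) :
    ext s φ (X (Sum.inr j)) = X (Sum.inr j) := by
  unfold ext
  rw [aeval_X, Sum.elim_inr]

lemma ext_inl (s : ℕ) (φ : MvPolynomial τ k →ₐ[k] MvPolynomial σ k) (q : MvPolynomial τ k) :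
    ext s φ (rename Sum.inl q) = rename Sum.inl (φ q) := by
  have h : (ext s φ).comp (rename Sum.inl) = (rename Sum.inl).comp φ := by
    apply MvPolynomial.algHom_ext
    intro t
    rw [AlgHom.comp_apply, AlgHom.comp_apply, rename_X]
    unfold ext
    rw [aeval_X, Sum.elim_inl]
  exact DFunLike.congr_fun h q

lemma ext_comp {υ : Type} (s : ℕ) (φ : MvPolynomial τ k →ₐ[k] MvPolynomial σ k)
    (ψ : MvPolynomial σ k →ₐ[k] MvPolynomial υ k) :
    (ext s ψ).comp (ext s φ) = ext s (ψ.comp φ) := by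
  apply MvPolynomial.algHom_ext
  intro t
  rw [AlgHom.comp_apply]
  rcases t with t | t
  · have h1 : (X (Sum.inl t) : MvPolynomial (SV τ s) k) = rename Sum.inl (X t) := by
      rw [rename_X]
    rw [h1, ext_inl, ext_inl, ext_inl, AlgHom.comp_apply]
  · rw [ext_inr, ext_inr, ext_inr]

lemma ext_id (s : ℕ) : ext s (AlgHom.id k (MvPolynomial τ k)) = AlgHom.id k _ := by
  apply MvPolynomial.algHom_ext
  intro t
  rcases t with t | t
  · have h1 : (X (Sum.inl t) : MvPolynomial (SV τ s) k) = rename Sum.inl (X t) := by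
      rw [rename_X]
    rw [h1, ext_inl, AlgHom.id_apply, AlgHom.id_apply]
  · rw [ext_inr, AlgHom.id_apply]

/-- extension of an isomorphism to the new variables -/
def extE (s : ℕ) (Φ : MvPolynomial τ k ≃ₐ[k] MvPolynomial σ k) :
    MvPolynomial (SV τ s) k ≃ₐ[k] MvPolynomial (SV σ s) k :=
  AlgEquiv.ofAlgHom (ext s Φ.toAlgHom) (ext s Φ.symm.toAlgHom)
    (by
      rw [ext_comp]
      have : Φ.toAlgHom.comp Φ.symm.toAlgHom = AlgHom.id k _ := by
        ext x
        simp
      rw [this, ext_id])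
    (by
      rw [ext_comp]
      have : Φ.symm.toAlgHom.comp Φ.toAlgHom = AlgHom.id k _ := by
        ext x
        simp
      rw [this, ext_id])

lemma extE_apply (s : ℕ) (Φ : MvPolynomial τ k ≃ₐ[k] MvPolynomial σ k)
    (x : MvPolynomial (SV τ s) k) : extE s Φ x = ext s Φ.toAlgHom x := rfl

lemma extE_stab (s : ℕ) (Φ : MvPolynomial τ k ≃ₐ[k] MvPolynomial σ k) (F : MvPolynomial τ k) :
    extE s Φ (stab F s) = stab (Φ F) s := by
  unfold stab
  rw [extE_apply, map_add, ext_inl, map_sum]
  congr 1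
  apply Finset.sum_congr rfl
  intro j _
  rw [map_mul, ext_inr, ext_inr]

end

theorem ren : RenStmt := by
  refine ⟨?_, ?_⟩
  · intro k _ σ f r s
    refine ⟨renameEquiv k (eqv σ r s), rename_stab f r s, fun F => ?_⟩
    exact totalDegree_renameEquiv (eqv σ r s) F
  · intro k _ σ τ Φ F s
    exact ⟨extE s Φ, extE_stab s Φ F⟩

end Pool.Agent.Helper8_CR.H34
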